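import Pool.Agent.Helper65.OneTape.PhaseDefs

/-! The parsing sweep of the sweeping algorithm. -/

namespace Pool.Agent.Helper65.OneTape

/-- states that are not states of the parsing sweep -/
def NonParse : St → Prop
  | .parse _ _ => False
  | _ => True

/-- cells that are not raw -/
def NonRaw : Cell → Prop
  | .raw _ => False
  | _ => True

/-- remove the filling cells -/
def strip (u : List Cell) : List Cell := u.filter fun c => decide (c ≠ .fill)

@[simp] theorem strip_nil : strip [] = [] := rfl
@[simp] theorem strip_fill (u : List Cell) : strip (.fill :: u) = strip u := by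
  simp [strip]
theorem strip_cons {c : Cell} (hc : c ≠ .fill) (u : List Cell) : strip (c :: u) = c :: strip u := by
  simp [strip, hc]
@[simp] theorem strip_bit (v m : Bool) (u : List Cell) :
    strip (.bit v m :: u) = .bit v m :: strip u := strip_cons (by simp) u
@[simp] theorem strip_hash (p : Bool × Bool) (a b c : Bool) (u : List Cell) :
    strip (.hash p a b c :: u) = .hash p a b c :: strip u := strip_cons (by simp) u
@[simp] theorem strip_dol (u : List Cell) :
    strip (.dol :: u) = .dol :: strip u := strip_cons (by simp) u

theorem ft_fill (s : St) (hs : NonParse s) : ft s .fill = (s, .fill) := by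
  cases s <;> simp_all [ft, fbc, fmv, frst, fck, NonParse]

theorem ft_np (s : St) (hs : NonParse s) (c : Cell) (hc : NonRaw c) (hf : c ≠ .fill) :
    NonParse (ft s c).1 ∧ NonRaw (ft s c).2 ∧ (ft s c).2 ≠ .fill := by
  cases s with
  | parse fb sd => exact absurd hs (by simp [NonParse])
  | bc b y f1 rs acc n1 u ux ok =>
    cases c with
    | raw b => exact absurd hc (by simp [NonRaw])
    | fill => exact absurd rfl hf
    | bit v m => simp only [ft, fbc]; split_ifs <;> simp [NonParse, NonRaw]
    | hash p a b c => simp [ft, fbc, NonParse, NonRaw]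
    | dol => simp [ft, fbc, NonParse, NonRaw]
  | mv cmp y lk par more =>
    cases c with
    | raw b => exact absurd hc (by simp [NonRaw])
    | fill => exact absurd rfl hf
    | bit v m => simp [ft, fmv, NonParse, NonRaw]
    | hash p a b c => simp only [ft, fmv]; split_ifs <;> simp [NonParse, NonRaw]
    | dol => simp [ft, fmv, NonParse, NonRaw]
  | rst y t kept =>
    cases c with
    | raw b => exact absurd hc (by simp [NonRaw])
    | fill => exact absurd rfl hf
    | bit v m => simp [ft, frst, NonParse, NonRaw]
    | hash p a b c => simp [ft, frst, NonParse, NonRaw]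
    | dol => simp [ft, frst, NonParse, NonRaw]
  | ck y st car mis df =>
    cases c with
    | raw b => exact absurd hc (by simp [NonRaw])
    | fill => exact absurd rfl hf
    | bit v m => simp only [ft, fck]; split_ifs <;> simp [NonParse, NonRaw]
    | hash p a b c => simp only [ft, fck]; split_ifs <;> simp [NonParse, NonRaw]
    | dol => simp [ft, fck, NonParse, NonRaw]

theorem fe_np (s : St) (κ : Bool × Bool) (s' : St) (h : fe s κ = Sum.inl s') : NonParse s' := by
  cases s with
  | parse fb sd => simp only [fe, Sum.inl.injEq] at h; subst h; trivial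
  | bc b y f1 rs acc n1 u ux ok =>
    simp only [fe] at h
    split_ifs at h <;> first | (cases h; done) | (simp only [Sum.inl.injEq] at h; subst h; trivial)
  | mv cmp y lk par more =>
    simp only [fe] at h
    split_ifs at h <;> first | (cases h; done) | (simp only [Sum.inl.injEq] at h; subst h; trivial)
  | rst y t kept =>
    simp only [fe] at h
    split_ifs at h <;> first | (cases h; done) | (simp only [Sum.inl.injEq] at h; subst h; trivial)
  | ck y st car mis df =>
    simp only [fe] at h
    split_ifs at h <;> first | (cases h; done) | (simp only [Sum.inl.injEq] at h; subst h; trivial)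

theorem scan_strip (s : St) (hs : NonParse s) (u : List Cell) (hu : ∀ c ∈ u, NonRaw c) :
    scan ft s (strip u) = ((scan ft s u).1, strip (scan ft s u).2) ∧ NonParse (scan ft s u).1 ∧
      ∀ c ∈ (scan ft s u).2, NonRaw c := by
  induction u generalizing s with
  | nil => simpa [scan] using hs
  | cons c u ih =>
    by_cases hc : c = .fill
    · subst hc
      have hu' : ∀ c ∈ u, NonRaw c := fun c hc => hu c (by simp [hc])
      obtain ⟨h1, h2, h3⟩ := ih s hs hu'
      rw [strip_fill, h1]
      simp only [scan, ft_fill s hs, strip_fill, h2, true_and]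
      intro c hc
      rcases List.mem_cons.1 hc with rfl | hc
      · trivial
      · exact h3 c hc
    · obtain ⟨h4, h5, h6⟩ := ft_np s hs c (hu c (by simp)) hc
      obtain ⟨h1, h2, h3⟩ := ih (ft s c).1 h4 (fun c hc => hu c (by simp [hc]))
      rw [strip_cons hc]
      simp only [scan, h1, strip_cons h6, h2, true_and]
      intro c hc
      rcases List.mem_cons.1 hc with rfl | hc
      · exact h5
      · exact h3 c hc

/-- two results of sweeps agree up to filling cells -/
def SRel : (St × List Cell) ⊕ Option Bool → (St × List Cell) ⊕ Option Bool → Prop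
  | .inl a, .inl b => b = (a.1, strip a.2) ∧ NonParse a.1 ∧ ∀ c ∈ a.2, NonRaw c
  | .inr a, .inr b => a = b
  | _, _ => False

theorem sweeps_strip (κ : ℕ → Bool × Bool) (s : St) (hs : NonParse s) (u : List Cell)
    (hu : ∀ c ∈ u, NonRaw c) (k : ℕ) :
    SRel (sweeps ft fe κ s u k) (sweeps ft fe κ s (strip u) k) := by
  induction k with
  | zero => exact ⟨rfl, hs, hu⟩
  | succ k ih =>
    simp only [sweeps]
    generalize sweeps ft fe κ s u k = A at ih ⊢
    generalize sweeps ft fe κ s (strip u) k = B at ih ⊢
    rcases A with ⟨s1, u1⟩ | o
    · rcases B with ⟨s2, u2⟩ | o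
      · obtain ⟨h1, h2, h3⟩ := ih
        simp only [Prod.mk.injEq] at h1
        obtain ⟨h1a, h1b⟩ := h1
        subst h1a h1b
        obtain ⟨h4, h5, h6⟩ := scan_strip _ h2 u1 h3
        simp only at h4 h5 h6
        simp only [h4]
        rcases hfe : fe (scan ft s2 u1).1 (κ k) with s'' | o
        · exact ⟨rfl, fe_np _ _ _ hfe, h6⟩
        · rfl
      · exact ih.elim
    · rcases B with ⟨s2, u2⟩ | o'
      · exact ih.elim
      · exact ih

/-- the cells written for a letter after the first dollar -/
def cellsOf : Letter → List Cell
  | .bit v => [.bit v false]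
  | .hash => [.hash (false, false) false false true]
  | .dol => []

theorem encBits_zero (xs : List Bool) : encBits xs 0 = xs.map (fun v => Cell.bit v false) := by
  induction xs with
  | nil => rfl
  | cons v xs ih => simp [encBits, ih]

/-- a row before the first broadcast -/
def row0 (x : List Bool) : Row := ⟨x, 0, (false, false), false, false, true⟩

theorem cells_rows (u : List Letter) (cur : List Bool) :
    ∃ tr, IsBits tr ∧ encBits cur 0 ++ u.flatMap cellsOf =
      encReg ((rowsOf cur u).map row0) ++ tr := by
  induction u generalizing cur with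
  | nil =>
    refine ⟨encBits cur 0, ?_, by simp [rowsOf]⟩
    intro c hc
    rw [encBits_zero] at hc
    obtain ⟨v, _, rfl⟩ := List.mem_map.1 hc
    exact ⟨v, false, rfl⟩
  | cons l u ih =>
    cases l with
    | bit v =>
      obtain ⟨tr, h1, h2⟩ := ih (cur ++ [v])
      refine ⟨tr, h1, ?_⟩
      rw [rowsOf, ← h2]
      simp [encBits_zero, cellsOf]
    | hash =>
      obtain ⟨tr, h1, h2⟩ := ih []
      refine ⟨tr, h1, ?_⟩
      rw [rowsOf, List.map_cons, encReg_cons, List.append_assoc, ← h2]
      simp [encRow, cellsOf, row0, encBits]
    | dol =>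
      obtain ⟨tr, h1, h2⟩ := ih cur
      refine ⟨tr, h1, ?_⟩
      rw [rowsOf, ← h2]
      simp [cellsOf]

theorem scan_parse_true : ∀ w : List Bool,
    (∃ fb sd, (scan ft (.parse none true) (w.map .raw)).1 = .parse fb sd) ∧
    (∀ c ∈ (scan ft (.parse none true) (w.map .raw)).2, NonRaw c) ∧
    strip (scan ft (.parse none true) (w.map .raw)).2 = (decode w).flatMap cellsOf
  | [] => by simp [scan, decode]
  | [a] => by simp [scan, decode, ft, fparse, NonRaw]
  | a :: b :: w => by
    obtain ⟨h1, h2, h3⟩ := scan_parse_true w
    refine ⟨?_, ?_, ?_⟩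
    · cases a <;> cases b <;> simpa [scan, ft, fparse, -Bool.exists_bool] using h1
    · cases a <;> cases b <;> simp only [List.map_cons, scan, ft, fparse, if_true] <;>
        intro c hc <;> simp only [List.mem_cons] at hc <;> rcases hc with rfl | rfl | hc <;>
        first | trivial | exact h2 c hc
    · cases a <;> cases b <;> simp [scan, decode, ft, fparse, letter, cellsOf, h3]

theorem scan_parse_false : ∀ w : List Bool,
    (∃ fb sd, (scan ft (.parse none false) (w.map .raw)).1 = .parse fb sd) ∧
    (∀ c ∈ (scan ft (.parse none false) (w.map .raw)).2, NonRaw c) ∧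
    (Letter.dol ∉ decode w →
      strip (scan ft (.parse none false) (w.map .raw)).2 = (decode w).flatMap cellsOf) ∧
    (Letter.dol ∈ decode w →
      strip (scan ft (.parse none false) (w.map .raw)).2 =
        ((decode w).takeWhile (· ≠ .dol)).flatMap cellsOf ++
          Cell.dol :: ((decode w).dropWhile (· ≠ .dol)).flatMap cellsOf)
  | [] => by simp [scan, decode]
  | [a] => by simp [scan, decode, ft, fparse, NonRaw]
  | a :: b :: w => by
    obtain ⟨h1, h2, h3, h4⟩ := scan_parse_false w
    obtain ⟨g1, g2, g3⟩ := scan_parse_true w
    cases a <;> cases b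
    · refine ⟨?_, ?_, ?_, ?_⟩
      · simpa [scan, ft, fparse] using h1
      · simp only [List.map_cons, scan, ft, fparse]
        simpa [NonRaw] using h2
      · intro h
        simp only [decode, letter, List.mem_cons, not_or] at h
        simp [scan, ft, fparse, decode, letter, cellsOf, h3 h.2]
      · intro h
        simp only [decode, letter, List.mem_cons] at h
        have h' : Letter.dol ∈ decode w := by simpa using h
        have := h4 h'
        simp only [decode, letter]
        rw [List.takeWhile_cons_of_pos (by simp), List.dropWhile_cons_of_pos (by simp)]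
        simp [scan, ft, fparse, cellsOf, this]
    · refine ⟨?_, ?_, ?_, ?_⟩
      · simpa [scan, ft, fparse] using h1
      · simp only [List.map_cons, scan, ft, fparse]
        simpa [NonRaw] using h2
      · intro h
        simp only [decode, letter, List.mem_cons, not_or] at h
        simp [scan, ft, fparse, decode, letter, cellsOf, h3 h.2]
      · intro h
        simp only [decode, letter, List.mem_cons] at h
        have h' : Letter.dol ∈ decode w := by simpa using h
        have := h4 h'
        simp only [decode, letter]
        rw [List.takeWhile_cons_of_pos (by simp), List.dropWhile_cons_of_pos (by simp)]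
        simp [scan, ft, fparse, cellsOf, this]
    · refine ⟨?_, ?_, ?_, ?_⟩
      · simpa [scan, ft, fparse] using h1
      · simp only [List.map_cons, scan, ft, fparse]
        simpa [NonRaw] using h2
      · intro h
        simp only [decode, letter, List.mem_cons, not_or] at h
        simp [scan, ft, fparse, decode, letter, cellsOf, h3 h.2]
      · intro h
        simp only [decode, letter, List.mem_cons] at h
        have h' : Letter.dol ∈ decode w := by simpa using h
        have := h4 h'
        simp only [decode, letter]
        rw [List.takeWhile_cons_of_pos (by simp), List.dropWhile_cons_of_pos (by simp)]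
        simp [scan, ft, fparse, cellsOf, this]
    · refine ⟨?_, ?_, ?_, ?_⟩
      · simpa [scan, ft, fparse] using g1
      · simp only [List.map_cons, scan, ft, fparse]
        simpa [NonRaw] using g2
      · intro h
        simp [decode, letter] at h
      · intro h
        simp only [decode, letter]
        rw [List.takeWhile_cons_of_neg (by simp), List.dropWhile_cons_of_neg (by simp)]
        simp [scan, ft, fparse, cellsOf, g3]

theorem bX_nil_row0 (X : List (List Bool)) : bX [] (X.map fun x => (x, true)) = X.map row0 := by
  simp [bX, row0, dot, Function.comp_def]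

theorem bY_nil_row0 (X : List (List Bool)) : bY [] (X.map fun x => (x, false)) = X.map row0 := by
  simp [bY, row0, dot, Function.comp_def]

theorem parse_run (w : List Bool) (κ : ℕ → Bool × Bool) :
    (Letter.dol ∉ decode w ∧
      sweeps ft fe κ (.parse none false) (w.map .raw) 2 = Sum.inr (some false)) ∨
    ∃ trX trY, IsBits trX ∧ IsBits trY ∧ ∀ k o,
      sweeps ft fe (fun i => κ (1 + i)) (sbc (κ 0) true)
        (tp (bX [] ((rowsX w).map fun x => (x, true))) (bY [] ((rowsY w).map fun y => (y, false)))
          trX trY) k = Sum.inr o →
      sweeps ft fe κ (.parse none false) (w.map .raw) (1 + k) = Sum.inr o := by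
  obtain ⟨⟨fb, sd, h1⟩, h2, h3, h4⟩ := scan_parse_false w
  have h5 : sweeps ft fe κ (.parse none false) (w.map .raw) 1 =
      Sum.inl (sbc (κ 0) true, (scan ft (.parse none false) (w.map .raw)).2) := by
    apply sweeps_one_inl
    rw [h1]
    rfl
  have h6 : ∀ k o, sweeps ft fe (fun i => κ (1 + i)) (sbc (κ 0) true)
      (strip (scan ft (.parse none false) (w.map .raw)).2) k = Sum.inr o →
      sweeps ft fe κ (.parse none false) (w.map .raw) (1 + k) = Sum.inr o := by
    intro k o hk
    rw [sweeps_add _ _ _ _ _ _ _ _ _ h5]
    have := sweeps_strip (fun i => κ (1 + i)) (sbc (κ 0) true) trivial _ h2 k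
    rw [hk] at this
    generalize sweeps ft fe (fun i => κ (1 + i)) (sbc (κ 0) true)
      (scan ft (.parse none false) (w.map .raw)).2 k = A at this ⊢
    rcases A with A | A
    · exact this.elim
    · exact congrArg Sum.inr this
  by_cases hd : Letter.dol ∈ decode w
  · right
    obtain ⟨trX, hX1, hX2⟩ := cells_rows ((decode w).takeWhile (· ≠ .dol)) []
    obtain ⟨trY, hY1, hY2⟩ := cells_rows ((decode w).dropWhile (· ≠ .dol)) []
    refine ⟨trX, trY, hX1, hY1, ?_⟩
    intro k o hk
    apply h6 k o
    rw [h4 hd]
    simp only [encBits, List.nil_append] at hX2 hY2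
    rw [hX2, hY2]
    rw [bX_nil_row0, bY_nil_row0] at hk
    exact hk
  · left
    refine ⟨hd, ?_⟩
    apply h6 1 (some false)
    rw [h3 hd]
    obtain ⟨tr, ht1, ht2⟩ := cells_rows (decode w) []
    simp only [encBits, List.nil_append] at ht2
    rw [ht2]
    apply sweeps_one_inr
    rw [scan_append, scan_bc_reg _ _ _ _ _ _ _ 0 _ (by
      intro R hR
      obtain ⟨x, _, rfl⟩ := List.mem_map.1 hR
      rfl)]
    obtain ⟨rs', acc', tr', _, h8⟩ := scan_bc_tr (κ 0) false true 0 (false, false)
      (bcFold true 0 (((rowsOf [] (decode w)).map row0).map fun R => R.xs.length)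
        (false, false, true)).1
      (bcFold true 0 (((rowsOf [] (decode w)).map row0).map fun R => R.xs.length)
        (false, false, true)).2.1 false
      (bcFold true 0 (((rowsOf [] (decode w)).map row0).map fun R => R.xs.length)
        (false, false, true)).2.2 tr ht1
    rw [h8]
    simp [fe]

end Pool.Agent.Helper65.OneTape
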